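import Pool.Agent.Sq58.Main
import Pool.Agent.Sq58.Inverse

/-!
# Squeezing function near `1` at finite type convex boundary points
-/

set_option autoImplicit false
open Metric Filter Topology Set

namespace Pool.Agent.Results.MP_58a9b9_an.ParaboloidalConvex

/-- `ℂⁿ` with the Euclidean norm. -/
abbrev Cn (n : ℕ) := EuclideanSpace ℂ (Fin n)

variable {n : ℕ}

/-- Holomorphic embeddings of the open set `D` of `ℂⁿ` into `ℂⁿ`: injective holomorphic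
immersions. -/
def IsHolEmbedding (D : Set (Cn n)) (F : Cn n → Cn n) : Prop :=
  DifferentiableOn ℂ F D ∧ InjOn F D ∧ ∀ x ∈ D, Function.Injective (fderiv ℂ F x)

/-- The squeezing function. -/
noncomputable def squeezing (D : Set (Cn n)) (z : Cn n) : ℝ :=
  sSup {r : ℝ | 0 < r ∧ ∃ F : Cn n → Cn n, IsHolEmbedding D F ∧ MapsTo F D (ball 0 1) ∧
    F z = 0 ∧ ball 0 r ⊆ F '' D}

/-- `ρ` is a smooth local defining function of `D` on the neighbourhood `U` of `p`. -/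
def IsDefining (D : Set (Cn n)) (p : Cn n) (U : Set (Cn n)) (ρ : Cn n → ℝ) : Prop :=
  IsOpen U ∧ p ∈ U ∧ ContDiffOn ℝ (⊤ : ℕ∞) ρ U ∧ (∀ z ∈ U, fderiv ℝ ρ z ≠ 0) ∧
    ∀ z ∈ U, z ∈ D ↔ ρ z < 0

/-- Every complex line through `p` has finite order of contact with `{ρ = 0}` at `p`. -/
def FiniteLineType (ρ : Cn n → ℝ) (p : Cn n) : Prop :=
  ∀ v : Cn n, v ≠ 0 → ∃ k : ℕ, 1 ≤ k ∧ iteratedFDeriv ℝ k (fun ζ : ℂ => ρ (p + ζ • v)) 0 ≠ 0

/-- `g` is the real gradient of `ρ` at `p`. -/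
def IsGradient (ρ : Cn n → ℝ) (p g : Cn n) : Prop :=
  ∀ x : Cn n, fderiv ℝ ρ p x = (inner ℂ g x).re

/-- The real orthogonal projection of `x` onto the real hyperplane orthogonal to `g`. -/
noncomputable def tangentialPart (g x : Cn n) : Cn n :=
  x - ((inner ℂ g x).re / ‖g‖ ^ 2) • g

/-- Paraboloidal approach to `p`. -/
def ParaboloidalApproach (D : Set (Cn n)) (ρ : Cn n → ℝ) (p : Cn n) (z : ℕ → Cn n) : Prop :=
  ∃ g : Cn n, IsGradient ρ p g ∧ ∃ C : ℝ, ∀ᶠ ν in atTop,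
    ‖tangentialPart g (z ν - p)‖ ≤ C * Real.sqrt (infDist (z ν) (frontier D))

/-- The Levi form of `ρ` at `p` is positive definite on the complex tangent space. -/
def StronglyPseudoconvexAt (ρ : Cn n → ℝ) (p : Cn n) : Prop :=
  ∀ w : Cn n, w ≠ 0 → fderiv ℝ ρ p w = 0 → fderiv ℝ ρ p (Complex.I • w) = 0 →
    0 < iteratedFDeriv ℝ 2 ρ p ![w, w] + iteratedFDeriv ℝ 2 ρ p ![Complex.I • w, Complex.I • w]

theorem result : ∀ (n : ℕ), 2 ≤ n → ∀ D : Set (Cn n), IsOpen D → Convex ℝ D →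
    Bornology.IsBounded D → ∀ p ∈ frontier D, ∀ (U : Set (Cn n)) (ρ : Cn n → ℝ),
    IsDefining D p U ρ → FiniteLineType ρ p →
    ∀ z : ℕ → Cn n, (∀ ν, z ν ∈ D) → Tendsto z atTop (𝓝 p) → ParaboloidalApproach D ρ p z →
    Tendsto (fun ν => squeezing D (z ν)) atTop (𝓝 1) → StronglyPseudoconvexAt ρ p := by
  intro n _ D hDo hDc _ p hp U ρ hdef hft z hz hzp hpar hs w hw h1 h2
  obtain ⟨hU, hpU, hρ, hgrad, hDU⟩ := hdef
  obtain ⟨g, hg, C, hC⟩ := hpar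
  have hgn : fderiv ℝ ρ p g ≠ 0 := by
    intro h0
    rw [hg g, inner_self_eq_norm_sq_to_K] at h0
    have hg0 : g = 0 := by
      have h3 : ‖g‖ ^ 2 = 0 := by
        have : ((((‖g‖ : ℝ) : ℂ)) ^ 2).re = ‖g‖ ^ 2 := by
          rw [← Complex.ofReal_pow, Complex.ofReal_re]
        rw [← this]; exact h0
      exact norm_eq_zero.1 (pow_eq_zero_iff (two_ne_zero) |>.1 h3)
    apply hgrad p hpU
    ext x
    rw [hg x, hg0]
    simp
  refine Sq58.main_abs hDo hDc hp hU hpU hρ hDU hgn hz hzp ⟨C, ?_⟩ ?_ (hft w hw) h1 h2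
  · filter_upwards [hC] with ν hν
    exact ⟨(inner ℂ g (z ν - p)).re / ‖g‖ ^ 2, hν⟩
  · intro R hR0 hR1
    have hev : ∀ᶠ ν in atTop, R < squeezing D (z ν) := hs.eventually_const_lt hR1
    filter_upwards [hev] with ν hν
    have hne : {r : ℝ | 0 < r ∧ ∃ F : Cn n → Cn n, IsHolEmbedding D F ∧ MapsTo F D (ball 0 1) ∧
        F (z ν) = 0 ∧ ball 0 r ⊆ F '' D}.Nonempty := by
      by_contra hemp
      rw [Set.not_nonempty_iff_eq_empty] at hemp
      unfold squeezing at hν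
      rw [hemp, Real.sSup_empty] at hν
      linarith
    obtain ⟨r, ⟨_, F, ⟨hF1, hF2, hF3⟩, hF4, hF5, hF6⟩, hRr⟩ := exists_lt_of_lt_csSup hne hν
    obtain ⟨G, hG1, hG2, hG3⟩ := Sq58.inverse_holo hDo hF1 hF2 hF3
      ((ball_subset_ball hRr.le).trans hF6)
    exact ⟨F, G, hF1, hF4, hF5, hG1, hG2, hG3⟩

end Pool.Agent.Results.MP_58a9b9_an.ParaboloidalConvex
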